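import Pool.Agent.Q203.Hd10

/-!
# MP_1759d0_gt, Q1: entire functions of Hadamard order at most one

Let `g = lam (dx² + dy²)` be a complete conformal metric on `ℂ` with `-c ≤ K(g) ≤ 0`. Then the
coordinate function `z` has Hadamard order at most `1`; in fact `d_g(p, 0) ≥ ε log (1 + |p|²)`
for some `ε > 0`.

The definitions `len`, `gdist` and `Complete` are in `Pool.Agent.Q203.Hd1`:
* `len lam γ = ∫₀¹ √(lam (γ s)) |γ'(s)| ds`;
* `gdist lam p q` is the infimum of `len lam γ` over the `C¹` curves `γ : ℝ → ℂ` with `γ 0 = p`,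
  `γ 1 = q`;
* `Complete lam`: every Cauchy sequence for `gdist lam` converges for `gdist lam`.
-/

open Filter Topology Pool.Agent.Q203.Hd

namespace Pool.Agent.Results.MP_1759d0_gt.HadamardOrder

/-- The Gauss curvature `-Δ log lam / (2 lam)` of the metric `lam (dx² + dy²)`. -/
noncomputable def gaussK (lam : ℂ → ℝ) (z : ℂ) : ℝ :=
  -(Laplacian.laplacian (fun w => Real.log (lam w)) z) / (2 * lam z)

/-- The Hadamard order of `f` with respect to the metric `lam (dx² + dy²)`: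
`limsup` of `log log |f p| / log d_g(p, O)` as `p` leaves every compact set, points with
`|f p| ≤ 1` being ignored. -/
noncomputable def ordH (lam : ℂ → ℝ) (f : ℂ → ℂ) : EReal :=
  limsup (fun p : ℂ => ((Real.log (Real.log ‖f p‖) / Real.log (gdist lam p 0) : ℝ) : EReal))
    (cocompact ℂ ⊓ 𝓟 {p | 1 < ‖f p‖})

theorem dist_lower {u : ℂ → ℝ} (hu : ContDiff ℝ 2 u) (hcomp : Complete (lm u)) {c : ℝ}
    (hc0 : 0 ≤ c) (hlap : ∀ z, lap u z ≤ 2 * c * lm u z) (hsub : ∀ z, 0 ≤ lap u z) :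
    ∃ ε > 0, ∀ p : ℂ, ε * Real.log (1 + ‖p‖ ^ 2) ≤ gdist (lm u) p 0 := by
  obtain ⟨C, T, hC, hT, hE⟩ := Ew_bounded hu hcomp hc0 hlap hsub
  have hlc : Continuous (lm u) := lm_cont hu
  set R₀ := Real.exp T with hR₀
  have hR1 : 1 ≤ R₀ := Real.one_le_exp hT.le
  have hfar : ∀ z : ℂ, R₀ ≤ ‖z‖ → 1 ≤ C * (lm u z * ‖z‖ ^ 2) := by
    intro z hz
    have hz0 : 0 < ‖z‖ := by linarith
    have hzne : z ≠ 0 := norm_pos_iff.mp hz0
    have h1 := hE (Complex.log z) (by
      rw [Complex.log_re, Real.le_log_iff_exp_le hz0]; exact hz)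
    rw [Ew_eq, Complex.exp_log hzne] at h1
    have h2 := lm_pos u z
    rwa [div_le_iff₀ (by positivity)] at h1
  obtain ⟨z0, _, hmin⟩ := (isCompact_closedBall (0:ℂ) R₀).exists_isMinOn
    ⟨0, Metric.mem_closedBall_self (by linarith)⟩ (hlc.sqrt.continuousOn)
  set m := Real.sqrt (lm u z0) with hm
  have hm0 : 0 < m := Real.sqrt_pos.mpr (lm_pos u z0)
  set ε := min m (1 / Real.sqrt C / 2) with hε
  have hsC : 0 < Real.sqrt C := Real.sqrt_pos.mpr hC
  have hε0 : 0 < ε := lt_min hm0 (by positivity)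
  refine ⟨ε, hε0, ?_⟩
  have hsq : ContDiff ℝ 1 (fun z : ℂ => 1 + ‖z‖ ^ 2) :=
    contDiff_const.add (contDiff_id.norm_sq ℝ)
  have hψc : ContDiff ℝ 1 (fun z : ℂ => ε * Real.log (1 + ‖z‖ ^ 2)) :=
    contDiff_const.mul (hsq.log fun z => by positivity)
  have hψb : ∀ z, ‖fderiv ℝ (fun z : ℂ => ε * Real.log (1 + ‖z‖ ^ 2)) z‖ ≤
      Real.sqrt (lm u z) := by
    intro z
    have h1 : HasFDerivAt (fun z : ℂ => 1 + ‖z‖ ^ 2) (2 • (innerSL ℝ) z) z :=
      ((hasStrictFDerivAt_norm_sq z).hasFDerivAt).const_add 1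
    have h2 := ((h1.log (by positivity)).const_mul ε).fderiv
    rw [h2]
    have h3 : ‖ε • (1 + ‖z‖ ^ 2)⁻¹ • (2 • (innerSL ℝ) z)‖ ≤ ε * ((1 + ‖z‖ ^ 2)⁻¹ * (2 * ‖z‖)) := by
      rw [norm_smul, norm_smul, Real.norm_of_nonneg hε0.le, Real.norm_of_nonneg (by positivity)]
      have h4 : ‖2 • (innerSL ℝ) z‖ ≤ 2 * ‖z‖ := by
        rw [two_nsmul]
        refine (norm_add_le _ _).trans ?_
        rw [innerSL_apply_norm]
        linarith
      gcongr
    refine h3.trans ?_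
    rcases le_total ‖z‖ R₀ with hz | hz
    · have h4 : m ≤ Real.sqrt (lm u z) := hmin (by simpa using hz)
      have h5 : (1 + ‖z‖ ^ 2)⁻¹ * (2 * ‖z‖) ≤ 1 := by
        rw [inv_mul_le_iff₀ (by positivity)]
        nlinarith [sq_nonneg (‖z‖ - 1)]
      calc ε * ((1 + ‖z‖ ^ 2)⁻¹ * (2 * ‖z‖)) ≤ ε * 1 := by gcongr
        _ ≤ m := by rw [mul_one]; exact min_le_left _ _
        _ ≤ _ := h4
    · have hz0 : 0 < ‖z‖ := by linarith
      have h4 : (1 + ‖z‖ ^ 2)⁻¹ * (2 * ‖z‖) ≤ 2 / ‖z‖ := by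
        rw [inv_mul_le_iff₀ (by positivity), mul_div_assoc', le_div_iff₀ hz0]
        nlinarith
      have h5 : 1 / (Real.sqrt C * ‖z‖) ≤ Real.sqrt (lm u z) := by
        apply Real.le_sqrt_of_sq_le
        rw [div_pow, mul_pow, Real.sq_sqrt hC.le, div_le_iff₀ (by positivity)]
        have := hfar z hz
        linarith
      calc ε * ((1 + ‖z‖ ^ 2)⁻¹ * (2 * ‖z‖)) ≤ (1 / Real.sqrt C / 2) * (2 / ‖z‖) := by
            gcongr
            exact min_le_right _ _
        _ = 1 / (Real.sqrt C * ‖z‖) := by field_simp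
        _ ≤ _ := h5
  intro p
  have := calib hlc hψc hψb 0 p
  rw [gdist_comm] at this
  simpa using this

theorem order_le {lam : ℂ → ℝ} {ε : ℝ} (hε : 0 < ε)
    (h : ∀ p : ℂ, ε * Real.log (1 + ‖p‖ ^ 2) ≤ gdist lam p 0) :
    ordH lam (fun z => z) ≤ 1 := by
  unfold ordH
  by_contra hcon
  push Not at hcon
  obtain ⟨a, ha1, ha2⟩ := EReal.lt_iff_exists_real_btwn.mp hcon
  have ha1' : 1 < a := by exact_mod_cast ha1
  apply absurd ha2
  push Not
  apply limsup_le_of_le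
  · isBoundedDefault
  have hL : Tendsto (fun p : ℂ => Real.log (Real.log ‖p‖)) (cocompact ℂ) atTop :=
    Real.tendsto_log_atTop.comp (Real.tendsto_log_atTop.comp tendsto_norm_cocompact_atTop)
  have e1 : ∀ᶠ p in cocompact ℂ ⊓ 𝓟 {p : ℂ | 1 < ‖p‖},
      max 0 (max (-Real.log (2 * ε)) (-(a * Real.log (2 * ε)) / (a - 1))) <
        Real.log (Real.log ‖p‖) :=
    (hL.eventually_gt_atTop _).filter_mono inf_le_left
  have e2 : ∀ᶠ p in cocompact ℂ ⊓ 𝓟 {p : ℂ | 1 < ‖p‖}, 1 < ‖p‖ :=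
    eventually_inf_principal.mpr (Eventually.of_forall fun p hp => hp)
  filter_upwards [e1, e2] with p hp1 hp2
  have h0 : 0 < Real.log (Real.log ‖p‖) := lt_of_le_of_lt (le_max_left _ _) hp1
  have h1 : -Real.log (2 * ε) < Real.log (Real.log ‖p‖) :=
    lt_of_le_of_lt ((le_max_left _ _).trans (le_max_right _ _)) hp1
  have h2 : -(a * Real.log (2 * ε)) / (a - 1) < Real.log (Real.log ‖p‖) :=
    lt_of_le_of_lt ((le_max_right _ _).trans (le_max_right _ _)) hp1
  rw [div_lt_iff₀ (by linarith)] at h2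
  have hp0 : 0 < Real.log ‖p‖ := Real.log_pos hp2
  have h3 : 2 * ε * Real.log ‖p‖ ≤ gdist lam p 0 := by
    refine le_trans ?_ (h p)
    have : 2 * Real.log ‖p‖ ≤ Real.log (1 + ‖p‖ ^ 2) := by
      have h5 : Real.log (‖p‖ ^ 2) ≤ Real.log (1 + ‖p‖ ^ 2) :=
        Real.log_le_log (by positivity) (by linarith)
      rw [Real.log_pow] at h5
      exact_mod_cast h5
    nlinarith
  have h4 : Real.log (2 * ε) + Real.log (Real.log ‖p‖) ≤ Real.log (gdist lam p 0) := by
    rw [← Real.log_mul (by positivity) hp0.ne']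
    exact Real.log_le_log (by positivity) h3
  have h5 : 0 < Real.log (gdist lam p 0) := by linarith
  rw [EReal.coe_le_coe_iff, div_le_iff₀ h5]
  nlinarith

/-- **MP_1759d0_gt, Q1 (answer: yes).** Let `g = lam (dx² + dy²)` be a complete conformal metric on
`ℂ` (`lam` positive and `C²`, in particular `lam` smooth) whose Gauss curvature satisfies
`-c ≤ K(g) ≤ 0`. Then there is `ε > 0` with `d_g(p, O) ≥ ε log (1 + |p|²)` for all `p`, the
coordinate function `z` has Hadamard order at most `1`, and so there is a nonconstant entire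
function of Hadamard order at most `1`. -/
theorem result (lam : ℂ → ℝ) (hs : ContDiff ℝ 2 lam) (hpos : ∀ z, 0 < lam z)
    (hcomp : Complete lam) (c : ℝ) (hK : ∀ z, -c ≤ gaussK lam z ∧ gaussK lam z ≤ 0) :
    (∃ ε > 0, ∀ p : ℂ, ε * Real.log (1 + ‖p‖ ^ 2) ≤ gdist lam p 0) ∧
    ordH lam (fun z => z) ≤ 1 ∧
    ∃ f : ℂ → ℂ, Differentiable ℂ f ∧ (¬ ∃ a, ∀ z, f z = a) ∧ ordH lam f ≤ 1 := by
  set u : ℂ → ℝ := fun z => Real.log (lam z) with hu
  have huc : ContDiff ℝ 2 u := hs.log fun z => (hpos z).ne'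
  have hlm : lm u = lam := by
    funext z
    simp only [lm, hu]
    exact Real.exp_log (hpos z)
  have hlapK : ∀ z, gaussK lam z = -(lap u z) / (2 * lam z) := by
    intro z
    unfold gaussK
    rw [lap_eq]
  have hlap : ∀ z, lap u z ≤ 2 * c * lm u z := by
    intro z
    have h := (hK z).1
    rw [hlapK, le_div_iff₀ (by have := hpos z; positivity)] at h
    rw [hlm]
    linarith
  have hsub : ∀ z, 0 ≤ lap u z := by
    intro z
    have h := (hK z).2
    rw [hlapK, div_le_iff₀ (by have := hpos z; positivity)] at h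
    linarith
  have hc0 : 0 ≤ c := by
    have h := hK 0
    linarith
  obtain ⟨ε, hε, h⟩ := dist_lower huc (by rw [hlm]; exact hcomp) hc0 hlap hsub
  rw [hlm] at h
  have hord := order_le hε h
  refine ⟨⟨ε, hε, h⟩, hord, fun z => z, differentiable_id, ?_, hord⟩
  rintro ⟨a, ha⟩
  have h1 := ha 0
  have h2 := ha 1
  rw [← h1] at h2
  exact one_ne_zero h2

end Pool.Agent.Results.MP_1759d0_gt.HadamardOrder
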